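import Mathlib
import Pool.Agent.H96.OU.Fin4

/-!
# Continuity on the `𝔻^2_∞` vector fields implies being a multiplicator

`E` is a separable Banach space, `μ` a centered Gaussian measure on it (the classical Wiener space
`C_0([0,1], ℝ^n)` with Wiener measure is a special case) and `H` a separable real Hilbert space
(the Cameron-Martin space of the Wiener space is a special case). `A` is a field of bounded
operators on `H`, `ω ↦ A ω x` is measurable up to a null set for every `x`, and no adaptedness is
assumed. If `V ↦ A V` maps `𝔻^2_∞` continuously into itself, then it maps `𝔻^∞` continuously into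
itself.

Method: write `P_t` for the Ornstein-Uhlenbeck semigroup. The pointwise product
`(P_t φ)(P_t U)` equals `P_τ G` where `e^{2τ} = (1 + e^{2t})/2` and `‖G‖_2 ≤ ‖φ‖_2 ‖U‖_∞`. Since
`A` acts pointwise it commutes with multiplication by the scalar function `P_t φ`, so that the
`L²` smoothing bound for `A P_τ` gives a trace inequality
`∫ |A P_t U|² (P_t φ)² ≤ C t^{-κ} ‖φ‖_2²` for bounded `U`. This is bootstrapped to all `L^n`
bounds on `A P_t U`, extended to `U` in `L^{8n}` by dyadic truncation, and combined with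
`L²` regularity by interpolation.
-/

open MeasureTheory ProbabilityTheory
open scoped ENNReal NNReal
open Pool.Agent.H96.OU

namespace Pool.Agent.Results.MP_e701d5_pr.TwoInftyMultiplicator

/-- If `V ↦ A V` maps `𝔻^2_∞(E, H)` into itself continuously, then it maps `𝔻^∞(E, H)` into
itself continuously. -/
theorem result {E : Type*} [NormedAddCommGroup E] [NormedSpace ℝ E] [CompleteSpace E]
    [SecondCountableTopology E] [MeasurableSpace E] [BorelSpace E]
    {H : Type*} [NormedAddCommGroup H] [InnerProductSpace ℝ H] [CompleteSpace H]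
    [SecondCountableTopology H]
    (μ : Measure E) [IsGaussian μ] (hμ : ∫ x, x ∂μ = 0)
    (A : E → H →L[ℝ] H) (hAm : ∀ x : H, AEStronglyMeasurable (fun ω => A ω x) μ)
    (hmap : ∀ V : E → H, MemDTwoInfty μ V → MemDTwoInfty μ fun ω => A ω (V ω))
    (hcont : ∀ r : ℕ, ∃ (s : ℕ) (C : ℝ≥0), ∀ V : E → H, MemDTwoInfty μ V →
      sobolevNorm μ 2 r (fun ω => A ω (V ω)) ≤ C * sobolevNorm μ 2 s V) :
    (∀ V : E → H, MemDInfty μ V → MemDInfty μ fun ω => A ω (V ω)) ∧
    ∀ p : ℝ≥0∞, 1 < p → p ≠ ∞ → ∀ r : ℕ, ∃ (q : ℝ≥0∞) (s : ℕ) (C : ℝ≥0), 1 < q ∧ q ≠ ∞ ∧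
      ∀ V : E → H, MemDInfty μ V →
        sobolevNorm μ p r (fun ω => A ω (V ω)) ≤ C * sobolevNorm μ q s V :=
  main_ae μ hμ A hAm hmap hcont

end Pool.Agent.Results.MP_e701d5_pr.TwoInftyMultiplicator
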